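import Pool.Agent.H16.CG

namespace Pool.Agent.Results.MP_0c861e_co.Unlabeled

open Filter Topology Pool.Agent.H16.CG

theorem result : Tendsto (fun n : ℕ => (Upr n : ℝ) / (U n : ℝ)) atTop (𝓝 1) :=
  both.2

end Pool.Agent.Results.MP_0c861e_co.Unlabeled
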